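import Pool.Agent.N510.PA.Fin
import Pool.Agent.N510.PA.Inj
import Pool.Agent.N510.PA.Star
import Pool.Agent.N34.PA.Pol

/-!
# Groups generated by automorphisms of polynomial activity are Farrell–Jones groups

`C` is any class of groups with the closure properties `ClosedE C`, all of which are known for the
class of the groups that satisfy the Full Farrell–Jones Conjecture; the Whitehead groups of the
torsion-free groups in this class are trivial. Let `X` be a finite set. Each group generated by
automorphisms of the rooted tree `X^*` of polynomial activity is in `C`; the degrees are arbitrary
(and may be unbounded on the set of generators), the generators need not be finite-state (the rays along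
which the activity is concentrated are arbitrary), and the group may be infinitely generated. The
starting library has the case of finite-state automorphisms (MP_59dd5b_al.PolynomialActivity) and the
degrees `0` and `1` of the general case (MP_490288_al.BoundedAutomata, MP_98022b_gt.LinearActivity).
Nothing on amenability or random walks is used.

Outline of the proof. Fix a letter `d`. For a group `H` of tree automorphisms let `P(H)` be the group of
the directed automorphisms along the ray `d d d ...` with steps in `H`: they fix the ray, and the
sections at the words `d ... d x`, `x ≠ d`, are finitely many elements of `H`. Let `H 0` be the group
of the finitary automorphisms, `H 1` the group of the bounded automorphisms of finite type, and let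
`H (n+2)` be generated by `H (n+1)` and `P(H (n+1))`.

* Every automorphism of degree at most `n` is in `H (n+1)`.
* `H (n+2)` is the image of the amalgamated product `Γ n` of `H (n+1)` and `P(H (n+1))` over `P(H n)`, to
  which the recursion lifts. Every element of `Γ n` is eventually a directed letter along every ray
  (`Dt_all`), as the sections of an element of `H (n+1)` are, along every ray, eventually directed with
  steps in `H n`. By compactness the elements which act trivially are killed by a power of the
  recursion. So `H (n+2)` is a directed colimit of subgroups of iterated wreath products of `Γ n`.
* To show that `Γ n` is in `C` one needs a homomorphism to a group in `C` which is injective on `P(H n)`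
  (theorem on groups acting on trees). More generally consider the star products with the centre
  `H a` and the leaves `H (N r)`, `P(H (N r))` over `H r`, `P(H r)`, `r < a`; for all of them there is a
  homomorphism to a group in `C` which is injective on the vertex groups (`St_all`). Write the centre
  as a colimit of quotients of the cover `Γ b`, `a = b + 2`. By the recursion the star product over
  such a quotient maps to an iterated wreath product of any group in `C` to which the star product with
  the centre `Γ b` maps; and this one, whose centre is generated by `H (b+1)` and `P(H (b+1))`, maps to
  the star product with the centre `H (N (b+1))` and fewer leaves. This step is an induction over a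
  lexicographic order (as for the towers of Hanoi) and ends with edge groups that are locally finite.
-/

set_option autoImplicit false

namespace Pool.Agent.Results.MP_8f66f0_al.PolynomialActivity

open Pool.Agent.Y110.FJ (ClosedE)
open Pool.Agent.Y462.SS
open Pool.Agent.N510.PA (IsPol PolActivity pol_closed)

/-- Let `C` be a class of groups with the closure properties `ClosedE C`. Let `G` be a group of
automorphisms of a regular rooted tree `X^*`, `X` finite, generated by a set `S`, such that each
`s` in `S` is of degree at most `n` for some `n` (`IsPol n`: for `n = 0` bounded; for `n + 1`: off finitely
many rays every word has a prefix at which the section of `s` is one of finitely many automorphisms of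
degree at most `n`) or is a finite-state automorphism of polynomial activity. Then `G` is in `C`. -/
theorem result (C : ∀ (G : Type) [Group G], Prop) (hC : ClosedE C) (X : Type) (hX : Finite X)
    (G : Type) [Group G] (f : G →* Equiv.Perm (List X)) (hf : Function.Injective f)
    (S : Set G) (hS : Subgroup.closure S = ⊤) (hT : ∀ s ∈ S, IsTree (f s))
    (hB : ∀ s ∈ S, (∃ n, IsPol n (f s)) ∨ ((Sections (f s)).Finite ∧ PolActivity (f s))) : C G :=
  pol_closed Pool.Agent.N510.PA.Inj.main Pool.Agent.N510.PA.Star.main Pool.Agent.N34.PA.Pol.main
    C hC X hX G f hf S hS hT hB

end Pool.Agent.Results.MP_8f66f0_al.PolynomialActivity
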