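import Pool.Agent.N509.RG.AutF

/-!
# Automorphism groups of groups with subnormal series and the Farrell-Jones conjecture

`C` is any class of groups with the closure properties `ClosedE C`, all of which are known for the
class of the groups that satisfy the K- and L-theoretic Farrell-Jones conjecture with coefficients
and finite wreath products.

Let `H₀ ≤ H₁ ≤ ... ≤ Hₙ = G` be a series of groups, each of which is normal in the next one and
`Rigid` in it (see `Pool/Agent/N509/RG/Fin.lean`), for instance a series with finitely generated
terms, the factors of which are finite or subgroups of `SL₂(ℂ)` with two non-commuting elements of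
transcendental traces (closed hyperbolic surface groups). Only consecutive terms are related: `Hᵢ`
need not be normal in `G`.

(a) If `H₀` and the factors are finitely generated with finite centres and automorphism groups in
`C`, then the automorphism group of `G` is in `C`, and so is every extension of `G` by a group in
`C`.

(b) If `H₀` and the factors have trivial centres and their automorphism groups and outer
automorphism groups are in `C`, then the automorphism group and the outer automorphism group of `G`
are in `C`.

Outline of the proof. A finitely generated group `G` has only finitely many normal subgroups `N`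
such that `H₁(N; ℚ)` is finite-dimensional and `G / N` embeds in `SL₂(ℂ)` with two non-commuting
elements of transcendental traces: this is shown with the variety of the representations of `G` in
`SL₂(ℂ)`. So a subgroup of finite index of `Aut(G)` preserves `N`, and acts on `N` and on `G / N`.
The kernel of this action is finite if the centre of `N` is finite. For the outer automorphisms the
extension criterion is used: the preimage in `Out(G)` of an infinite cyclic subgroup of `Out(G / N)`
embeds in `Out(N) × Aut(G / N)`.
-/

set_option autoImplicit false

namespace Pool.Agent.Results.MP_8f66f0_al.TowerAutomorphisms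

open Pool.Agent.Y110.FJ (ClosedE)
open Pool.Agent.N509.RG

/-- The `i`-th factor of the series has the property `P`. -/
def Factor {Γ : Type} [Group Γ] (H : ℕ → Subgroup Γ) (P : ∀ (G : Type) [Group G], Prop)
    (i : ℕ) : Prop :=
  ∃ _ : ((H i).subgroupOf (H (i + 1))).Normal, P (H (i + 1) ⧸ (H i).subgroupOf (H (i + 1)))

/-- Finitely generated, with finite centre, and the automorphism group is in `C`. -/
def AutIn (C : ∀ (G : Type) [Group G], Prop) (G : Type) [Group G] : Prop :=
  Group.FG G ∧ Finite (Subgroup.center G) ∧ C (MulAut G)

/-- The centre is trivial, and the automorphism group and the outer automorphism group are in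
`C`. -/
def AutOutIn (C : ∀ (G : Type) [Group G], Prop) (G : Type) [Group G] : Prop :=
  Subgroup.center G = ⊥ ∧ C (MulAut G) ∧ C (Out G)

theorem result {C : ∀ (G : Type) [Group G], Prop} (hC : ClosedE C) {G : Type} [Group G]
    (n : ℕ) (H : ℕ → Subgroup G) (hle : ∀ i < n, H i ≤ H (i + 1)) (hn : H n = ⊤)
    (hrigid : ∀ i < n, Rigid ((H i).subgroupOf (H (i + 1)))) :
    (AutIn C (H 0) → (∀ i < n, Factor H (AutIn C) i) →
      C (MulAut G) ∧ ∀ (E : Type) [Group E] (N : Subgroup E) [N.Normal], Nonempty (G ≃* N) →
        C (E ⧸ N) → C E) ∧
    (AutOutIn C (H 0) → (∀ i < n, Factor H (AutOutIn C) i) → C (MulAut G) ∧ C (Out G)) := by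
  have e : H n ≃* G := (MulEquiv.subgroupCongr hn).trans Subgroup.topEquiv
  constructor
  · intro h0 hf
    have h1 := (autFin_series hC n H hle h0 fun i hi => ⟨hrigid i hi, hf i hi⟩).congr hC e
    exact ⟨h1.2.2, fun E _ N _ ⟨e'⟩ hQ => h1.extension hC N e' hQ⟩
  · intro h0 hf
    have h1 := (good_seriesC hC n H hle h0 fun i hi => ⟨hrigid i hi, hf i hi⟩).congrC hC e
    exact h1.2

end Pool.Agent.Results.MP_8f66f0_al.TowerAutomorphisms
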