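import Pool.Agent.N508.Wh.Cls

set_option autoImplicit false

/-! # Whitehead torsion of matrices with two or three terms per row

Let `Γ` be any group (torsion is allowed in the first part).

(1) Two terms. Let `A` be an invertible matrix over `ℤΓ` with at most two terms (nonzero
coefficients, arbitrary integers, possibly in the same entry) in each row, or at most two in each
column. Then `A = diag(g) M diag(h)` with group elements `g i`, `h j` and a matrix `M` in `GL_n(ℤ)`;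
in particular `A` is zero in the Whitehead group.

(2) Three terms. Let `S` be a generating set of `Γ`. Every element of `K₁(ℤΓ)` is represented by an
invertible matrix with at most three nonzero entries, all of the form `± s` (`s = 1`, `s ∈ S` or
`s⁻¹ ∈ S`), in each row and in each column, which is moreover supported on a finite piece of the square
grid. So `Wh(Γ) = 0` is a statement about these matrices.

Hence three is the exact threshold: two terms per row never give a nontrivial element of any Whitehead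
group, three terms per row and column give all elements of all Whitehead groups. -/

namespace Pool.Agent.Results.MP_8f66f0_al.TwoOrThreeTerms

open Matrix

section defs

variable {Γ : Type} [Group Γ]

/-- the number of terms (nonzero coefficients) of a vector over `ℤΓ` -/
def terms {n : ℕ} (v : Fin n → MonoidAlgebra ℤ Γ) : ℕ :=
  ∑ i, (v i).coeff.support.card

/-- neighbouring points of the square grid -/
def Neighbours (a b : ℤ × ℤ) : Prop :=
  (a.1 = b.1 ∧ (a.2 = b.2 + 1 ∨ a.2 + 1 = b.2)) ∨ (a.2 = b.2 ∧ (a.1 = b.1 + 1 ∨ a.1 + 1 = b.1))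

/-- A matrix which is supported on a finite piece of the square grid: its rows are at the points
`ρ i`, its columns at the points `c j`, all these points are different, the entry at `i j` is zero
unless `ρ i` and `c j` are neighbours; the nonzero entries are `± s` with `s = 1`, `s ∈ S` or
`s⁻¹ ∈ S`; each row and each column has at most three of them. -/
def OnGrid (S : Set Γ) {n : ℕ} (B : Matrix (Fin n) (Fin n) (MonoidAlgebra ℤ Γ)) : Prop :=
  ∃ ρ c : Fin n → ℤ × ℤ, Function.Injective ρ ∧ Function.Injective c ∧ (∀ i j, ρ i ≠ c j) ∧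
    (∀ i j, B i j ≠ 0 → Neighbours (ρ i) (c j)) ∧
    (∀ i j, B i j = 0 ∨ ∃ s : Γ, (s = 1 ∨ s ∈ S ∨ s⁻¹ ∈ S) ∧
      (B i j = MonoidAlgebra.single s 1 ∨ B i j = MonoidAlgebra.single s (-1))) ∧
    (∀ i, {j | B i j ≠ 0}.ncard ≤ 3) ∧ (∀ j, {i | B i j ≠ 0}.ncard ≤ 3)

/-- The same class in `K₁(ℤΓ)`: after stabilisation by identity matrices to a common size, and an
identification `e` of the index sets, the matrices differ by a product of commutators of invertible
matrices. -/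
def SameClass {n m : ℕ} (A : Matrix (Fin n) (Fin n) (MonoidAlgebra ℤ Γ))
    (B : Matrix (Fin m) (Fin m) (MonoidAlgebra ℤ Γ)) : Prop :=
  ∃ (k l : ℕ) (e : Fin n ⊕ Fin k ≃ Fin m ⊕ Fin l)
    (C : (Matrix (Fin n ⊕ Fin k) (Fin n ⊕ Fin k) (MonoidAlgebra ℤ Γ))ˣ),
    C ∈ commutator (Matrix (Fin n ⊕ Fin k) (Fin n ⊕ Fin k) (MonoidAlgebra ℤ Γ))ˣ ∧
    Matrix.fromBlocks A 0 0 1 = (Matrix.fromBlocks B 0 0 1).submatrix e e *
      (↑C : Matrix (Fin n ⊕ Fin k) (Fin n ⊕ Fin k) (MonoidAlgebra ℤ Γ))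

/-- the square matrix `x` over `ℤΓ`, stabilised by an identity block, is `± g` on one diagonal entry
times a product of commutators of invertible matrices (the form of the frozen statement) -/
def ZeroInWh {n : ℕ} (x : Matrix (Fin n) (Fin n) (MonoidAlgebra ℤ Γ)) : Prop :=
  ∃ (m : ℕ) (g : Γ) (ε : ℤˣ)
    (C : (Matrix (Fin n ⊕ Fin (m + 1)) (Fin n ⊕ Fin (m + 1)) (MonoidAlgebra ℤ Γ))ˣ),
    C ∈ commutator (Matrix (Fin n ⊕ Fin (m + 1)) (Fin n ⊕ Fin (m + 1)) (MonoidAlgebra ℤ Γ))ˣ ∧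
    Matrix.fromBlocks x 0 0 (1 : Matrix (Fin (m + 1)) (Fin (m + 1)) (MonoidAlgebra ℤ Γ)) =
      Matrix.diagonal (fun i : Fin n ⊕ Fin (m + 1) =>
          if i = Sum.inr (0 : Fin (m + 1)) then
            (MonoidAlgebra.single g ((ε : ℤ)) : MonoidAlgebra ℤ Γ) else 1) *
        (↑C : Matrix (Fin n ⊕ Fin (m + 1)) (Fin n ⊕ Fin (m + 1)) (MonoidAlgebra ℤ Γ))

end defs

section aux

open TH57.Thr TH6.LF TH6.CX Pool.Agent.Y75.Th Pool.Agent.Y35.KC.TTm Pool.Agent.R719.DD
  Pool.Agent.R472.Grid Pool.Agent.N508.Wh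

variable {Γ : Type} [Group Γ]

theorem zero_of_TT {n : ℕ} {A : (Matrix (Fin n) (Fin n) (MonoidAlgebra ℤ Γ))ˣ}
    (h : TT (TU Γ) A) : ZeroInWh A.val := TT_explicit A h

theorem TT_of_zero {n : ℕ} {A : (Matrix (Fin n) (Fin n) (MonoidAlgebra ℤ Γ))ˣ}
    (h : ZeroInWh A.val) : TT (TU Γ) A := by
  obtain ⟨m, g, ε, C, hC, h1⟩ := h
  refine ⟨Fin (m + 1), inferInstance, inferInstance, ?_⟩
  have he : (ε : ℤ) * ε = 1 := by
    rcases Int.units_eq_one_or ε with h | h <;> rw [h] <;> norm_num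
  have h2 : Units.map (stm (Fin (m + 1))) A =
      Units.map (dgm (Sum.inr (0 : Fin (m + 1)))) (sgu g (ε : ℤ) he) * C := by
    apply Units.ext
    rw [Units.val_mul]
    change Matrix.fromBlocks A.val 0 0 1 =
      dgm (Sum.inr (0 : Fin (m + 1))) (MonoidAlgebra.single g (ε : ℤ)) * C.val
    rw [h1, dgm_apply]
    congr 2
    funext i
    by_cases h : i = Sum.inr (0 : Fin (m + 1))
    · subst h; simp
    · rw [if_neg h, Function.update_of_ne h]; rfl
  rw [h2]
  exact mul_mem (dgm_mem_HH _ _ _ (sgu_mem _ _ _)) (commutator_le_HH _ hC)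

/-- the reduction to the grid -/
theorem grid (S : Set Γ) (hS : Subgroup.closure S = ⊤) {n : ℕ}
    (A : (Matrix (Fin n) (Fin n) (MonoidAlgebra ℤ Γ))ˣ) :
    ∃ (m : ℕ) (B : (Matrix (Fin m) (Fin m) (MonoidAlgebra ℤ Γ))ˣ), OnGrid S B.val ∧
      SameClass A.val B.val ∧ (TT (TU Γ) B → TT (TU Γ) A) := by
  classical
  obtain ⟨ν, i1, i2, P, Q, hPQ, hG⟩ := grid_form
    (G := {x : MonoidAlgebra ℤ Γ | ∃ s : Γ, (s = 1 ∨ s ∈ S ∨ s⁻¹ ∈ S) ∧
      (x = MonoidAlgebra.single s 1 ∨ x = MonoidAlgebra.single s (-1))})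
    ⟨1, Or.inl rfl, Or.inl MonoidAlgebra.one_def⟩
    (by
      rintro x ⟨s, hs, h⟩
      refine ⟨s, hs, ?_⟩
      rcases h with rfl | rfl
      · exact Or.inr (MonoidAlgebra.single_neg _ _).symm
      · left
        rw [← MonoidAlgebra.single_neg, neg_neg])
    (genBy S hS) A.val
  let B1 : (Matrix (Fin n ⊕ ν) (Fin n ⊕ ν) (MonoidAlgebra ℤ Γ))ˣ :=
    P * Units.map (stm ν) A * Q
  let C0 := B1⁻¹ * P⁻¹ * B1 * Q⁻¹
  have hAB : Units.map (stm ν) A = B1 * C0 := by
    simp only [B1, C0]; group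
  have hC0 : ∀ U : Subgroup (MonoidAlgebra ℤ Γ)ˣ, TT U C0 := by
    intro U
    have h1 := TT_conj U P⁻¹ B1⁻¹ (TT_inv U _ (hPQ U).1)
    rw [inv_inv] at h1
    exact TT_mul U _ _ h1 (TT_inv U _ (hPQ U).2)
  obtain ⟨μ, i3, i4, hμ⟩ := TT_bot_comm C0 (hC0 ⊥)
  obtain ⟨m, ⟨e0⟩⟩ : ∃ m, Nonempty (Fin m ≃ Fin n ⊕ ν) := ⟨_, ⟨(Fintype.equivFin _).symm⟩⟩
  obtain ⟨l, ⟨eμ⟩⟩ : ∃ l, Nonempty (Fin l ≃ μ) := ⟨_, ⟨(Fintype.equivFin _).symm⟩⟩
  obtain ⟨k, ⟨ek⟩⟩ : ∃ k, Nonempty (Fin k ≃ ν ⊕ μ) := ⟨_, ⟨(Fintype.equivFin _).symm⟩⟩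
  refine ⟨m, Units.map (re e0) B1, ?_, ?_, ?_⟩
  · obtain ⟨ρ, c, hρ, hc, hρc, h1, h2, h3, h4⟩ := hG
    refine ⟨ρ ∘ e0, c ∘ e0, hρ.comp e0.injective, hc.comp e0.injective,
      fun i j => hρc _ _, fun i j h => h1 _ _ h, fun i j => h2 _ _, fun i => ?_, fun j => ?_⟩
    · refine le_trans (Set.ncard_le_ncard_of_injOn e0 (fun j hj => ?_) e0.injective.injOn
        (Set.toFinite _)) (h3 (e0 i))
      exact hj
    · refine le_trans (Set.ncard_le_ncard_of_injOn e0 (fun i hi => ?_) e0.injective.injOn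
        (Set.toFinite _)) (h4 (e0 j))
      exact hi
  · let E1 : Fin n ⊕ Fin k ≃ (Fin n ⊕ ν) ⊕ μ :=
      (Equiv.sumCongr (Equiv.refl (Fin n)) ek).trans (Equiv.sumAssoc (Fin n) ν μ).symm
    refine ⟨k, l, E1.trans (Equiv.sumCongr e0.symm eμ.symm),
      Units.map (re E1) (Units.map (stm μ) C0), commutator_re E1 _ hμ, ?_⟩
    have h1 : (Matrix.fromBlocks ((Units.map (re e0) B1 :
        (Matrix (Fin m) (Fin m) (MonoidAlgebra ℤ Γ))ˣ) :
        Matrix (Fin m) (Fin m) (MonoidAlgebra ℤ Γ)) 0 0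
        (1 : Matrix (Fin l) (Fin l) (MonoidAlgebra ℤ Γ))).submatrix
        (E1.trans (Equiv.sumCongr e0.symm eμ.symm)) (E1.trans (Equiv.sumCongr e0.symm eμ.symm))
        = (Matrix.fromBlocks B1.val 0 0 (1 : Matrix μ μ (MonoidAlgebra ℤ Γ))).submatrix E1 E1 := by
      rw [Equiv.coe_trans, ← Matrix.submatrix_submatrix]
      congr 1
      ext1 i j
      rcases i with i | i <;> rcases j with j | j
      · change B1.val (e0 (e0.symm i)) (e0 (e0.symm j)) = B1.val i j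
        rw [Equiv.apply_symm_apply, Equiv.apply_symm_apply]
      · rfl
      · rfl
      · change (1 : Matrix (Fin l) (Fin l) (MonoidAlgebra ℤ Γ)) (eμ.symm i) (eμ.symm j)
          = (1 : Matrix μ μ (MonoidAlgebra ℤ Γ)) i j
        rw [Matrix.one_apply, Matrix.one_apply]
        simp
    rw [h1]
    change _ = (Matrix.fromBlocks B1.val 0 0 (1 : Matrix μ μ (MonoidAlgebra ℤ Γ))).submatrix E1 E1
      * (Matrix.fromBlocks C0.val 0 0 (1 : Matrix μ μ (MonoidAlgebra ℤ Γ))).submatrix E1 E1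
    rw [Matrix.submatrix_mul_equiv, Matrix.fromBlocks_multiply]
    have h2 : B1.val * C0.val = Matrix.fromBlocks A.val 0 0 1 := by
      rw [← Units.val_mul, ← hAB]; rfl
    simp only [Matrix.mul_zero, Matrix.zero_mul, add_zero, zero_add, mul_one]
    rw [h2]
    ext1 i j
    rcases i with i | i <;> rcases j with j | j
    · rfl
    · change (0 : MonoidAlgebra ℤ Γ) = _
      simp only [Matrix.submatrix_apply, E1, Equiv.trans_apply, Equiv.sumCongr_apply,
        Sum.map_inl, Sum.map_inr, Equiv.refl_apply]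
      rcases ek j with v | v <;> rfl
    · change (0 : MonoidAlgebra ℤ Γ) = _
      simp only [Matrix.submatrix_apply, E1, Equiv.trans_apply, Equiv.sumCongr_apply,
        Sum.map_inl, Sum.map_inr, Equiv.refl_apply]
      rcases ek i with v | v <;> rfl
    · change (1 : Matrix (Fin k) (Fin k) (MonoidAlgebra ℤ Γ)) i j = _
      simp only [Matrix.submatrix_apply, E1, Equiv.trans_apply, Equiv.sumCongr_apply,
        Sum.map_inr]
      have h3 : (1 : Matrix (Fin k) (Fin k) (MonoidAlgebra ℤ Γ)) i j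
          = (1 : Matrix (ν ⊕ μ) (ν ⊕ μ) (MonoidAlgebra ℤ Γ)) (ek i) (ek j) := by
        rw [Matrix.one_apply, Matrix.one_apply]
        simp
      rw [h3]
      rcases ek i with v | v <;> rcases ek j with w | w
      · change (1 : Matrix (ν ⊕ μ) (ν ⊕ μ) (MonoidAlgebra ℤ Γ)) (Sum.inl v) (Sum.inl w)
          = (1 : Matrix ν ν (MonoidAlgebra ℤ Γ)) v w
        simp [Matrix.one_apply]
      · change (1 : Matrix (ν ⊕ μ) (ν ⊕ μ) (MonoidAlgebra ℤ Γ)) (Sum.inl v) (Sum.inr w) = 0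
        simp
      · change (1 : Matrix (ν ⊕ μ) (ν ⊕ μ) (MonoidAlgebra ℤ Γ)) (Sum.inr v) (Sum.inl w) = 0
        simp
      · change (1 : Matrix (ν ⊕ μ) (ν ⊕ μ) (MonoidAlgebra ℤ Γ)) (Sum.inr v) (Sum.inr w)
          = (1 : Matrix μ μ (MonoidAlgebra ℤ Γ)) v w
        simp [Matrix.one_apply]
  · intro hB
    apply TT_unst (μ := ν)
    rw [hAB]
    refine TT_mul _ _ _ ?_ (hC0 _)
    have h1 := TT_re (TU Γ) e0.symm _ hB
    have h2 : Units.map (re e0.symm) (Units.map (re e0) B1) = B1 := by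
      apply Units.ext
      change (B1.val.submatrix e0 e0).submatrix e0.symm e0.symm = B1.val
      rw [Matrix.submatrix_submatrix]
      simp
    rwa [h2] at h1

end aux

/-- **Two or three terms.** -/
theorem result (Γ : Type) [Group Γ] :
    (∀ (n : ℕ) (A : (Matrix (Fin n) (Fin n) (MonoidAlgebra ℤ Γ))ˣ),
      ((∀ i, terms (fun j => A.val i j) ≤ 2) ∨ ∀ j, terms (fun i => A.val i j) ≤ 2) →
      (∃ (g h : Fin n → Γ) (M : (Matrix (Fin n) (Fin n) ℤ)ˣ), ∀ i j,
        A.val i j = MonoidAlgebra.single (g i * h j) (M.val i j)) ∧ ZeroInWh A.val) ∧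
    ∀ S : Set Γ, Subgroup.closure S = ⊤ →
      (∀ (n : ℕ) (A : (Matrix (Fin n) (Fin n) (MonoidAlgebra ℤ Γ))ˣ),
        ∃ (m : ℕ) (B : (Matrix (Fin m) (Fin m) (MonoidAlgebra ℤ Γ))ˣ),
          OnGrid S B.val ∧ SameClass A.val B.val) ∧
      ((∀ (n : ℕ) (A : (Matrix (Fin n) (Fin n) (MonoidAlgebra ℤ Γ))ˣ), ZeroInWh A.val) ↔
        ∀ (n : ℕ) (A : (Matrix (Fin n) (Fin n) (MonoidAlgebra ℤ Γ))ˣ), OnGrid S A.val →
          ZeroInWh A.val) := by
  refine ⟨fun n A h => ?_, fun S hS => ⟨fun n A => ?_, fun h n A _ => h n A, fun h n A => ?_⟩⟩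
  · have hg : Pool.Agent.N508.Wh.Gau A.val := by
      rcases h with h | h
      · exact Pool.Agent.N508.Wh.gauge n (Fin n) (Fintype.card_fin n) A h
      · exact Pool.Agent.N508.Wh.gauge_col A h
    exact ⟨Pool.Agent.N508.Wh.gau_unit A hg, zero_of_TT (Pool.Agent.N508.Wh.TT_gau A hg)⟩
  · obtain ⟨m, B, h1, h2, _⟩ := grid S hS A
    exact ⟨m, B, h1, h2⟩
  · obtain ⟨m, B, h1, _, h3⟩ := grid S hS A
    exact zero_of_TT (h3 (TT_of_zero (h m B h1)))

end Pool.Agent.Results.MP_8f66f0_al.TwoOrThreeTerms
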