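import Pool.Agent.N6.A.Psd

/-!
# Virtual Artin groups and extensions by Artin groups: Farrell–Jones conjecture, Whitehead groups

`C` is any class of groups with the closure properties `ClosedE C`, all of which are known for the
class of the groups that satisfy the Full Farrell–Jones Conjecture, that contains the Coxeter groups of
finite rank (they are CAT(0) groups); the Whitehead groups of the torsion-free groups in this class are
trivial. The label `∞` of a Coxeter matrix is `0`; all sets of generators may be infinite.

(1) `C` is closed under extensions by Artin groups on which every element acts, on every finite set of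
standard generators, as a label preserving injection composed with an inner automorphism and possibly
with the global inversion.

(2) Let `M` be a Coxeter matrix on a set `S`. The virtual Artin group `VA M` has generators `σ_s`, which
satisfy the relations of the Artin group, generators `τ_s`, which satisfy the relations of the Coxeter
group, and mixed relations (`vaRels`; Bellingeri–Paris–Thiel). For type `A` it is the virtual braid
group. Let `rtM M` be the Coxeter matrix on the root system `Rts M` in which the images of the simple
roots `s`, `t` under an element of the Coxeter group have the label `M s t`, and all other labels are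
`∞`. Then `VA M` is in `C` if and only if the Artin group of every finite irreducible set of roots without
label `∞` is in `C`.

(3) If `C` contains the Artin groups of irreducible spherical and affine type, then it contains the
virtual Artin groups of all spherical and affine types, more generally of all `M` such that the matrix
with the entries `-cos (π / M s t)` is positive semidefinite.

(4) If `C` contains the Artin groups of type `Ã_n` (`cyc (n + 1)`, subgroups of braid groups), then it
contains all virtual braid groups, and the Artin groups `Artin (vbM V)` for all sets `V`. The group
`Artin (vbM V)` has the generators `δ_{ab}`, `a ≠ b` in `V`, and the relations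
`δ_{ab} δ_{bc} δ_{ab} = δ_{bc} δ_{ab} δ_{bc}`, `δ_{ab} δ_{cd} = δ_{cd} δ_{ab}` for different `a, b, c, d`.
By (1) the semidirect products `Artin (vbM V) ⋊ Q` are also in `C` for all `Q` in `C` that act on `V`.

Outline of the proof. Let `W` be the Coxeter group of `M` and `X` a finite set of generators. A gallery in
the Cayley graph of `W` crosses walls; the walls of reflections in `W_X` which it crosses form a gallery
of `W_X` (`step`). Minimal galleries go to minimal galleries (`isReduced_el`, with roots), so by
Matsumoto's theorem for `W_X` the braid relations are respected (`E_braid`). This gives a homomorphism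
from the Artin group `A_M` to the semidirect product of `W` and the group of the finitely valued functions
`W → A_X`, which is injective on `A_X` and equivariant for diagram automorphisms (`Fh`, `Fh_conj`). The
target is in `C` if `A_X` is. If `M s t = ∞`, then `A_M` is the amalgamated product of the Artin groups
of `S ∖ {t}` and `S ∖ {s}`, and the product of two such homomorphisms is injective on both factors; this
reduces the case of finite rank to sets without label `∞`, and colimits give infinite rank. For
extensions, partial isomorphisms of `M` are extended to automorphisms of finite Coxeter matrices, and the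
homomorphism is made equivariant. The virtual Artin group is the semidirect product of the Artin group of
the root system and the Coxeter group (`vaEquiv`, a theorem of Bellingeri–Paris–Thiel); the main point is
that an element of `W` which maps a simple root to a simple root is a product of elements for which the
mixed relations hold (`conj_simple`). The Gram matrix shows that in the semidefinite case the sets of
roots without label `∞` are of spherical and affine type (`psd_rest`); in type `A` they are unions of
oriented paths and cycles (`ex_cyc`).
-/

set_option autoImplicit false

namespace Pool.Agent.Results.MP_8f66f0_al.VirtualArtinGroups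

open Pool.Agent.Y110.FJ (ClosedE)
open Pool.Agent.Helper741 (Artin)
open Pool.Agent.N77.CX (rest)
open Pool.Agent.N6.A

/-- Let `C` be a class of groups with the closure properties `ClosedE C` that contains the Coxeter
groups of finite rank.
(1) Let `ι` be an injective homomorphism from an Artin group in `C` onto a normal subgroup of `G` with
quotient in `C`. Suppose that for all `g` in `G` and every finite set `F` of generators there are `a`, a
map `θ` of the generators which is injective and preserves the labels on `F`, and a sign `e` with
`g ι(σ_i) g⁻¹ = ι(a σ_{θ i}^e a⁻¹)` for all `i` in `F`. Then `G` is in `C`.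
(2) For every Coxeter matrix `M` the virtual Artin group `VA M` is in `C` if and only if the Artin group
of every finite irreducible set of roots without label `∞` is in `C`.
(3) If `C` contains the Artin groups of finite rank whose Coxeter matrices are irreducible, positive
semidefinite and without label `∞`, then `C` contains `VA M` for all positive semidefinite `M`.
(4) If the Artin groups of type `Ã_n` (`cyc (n + 1)`, `n ≥ 2`) are in `C`, then so are the virtual braid
groups `VA (CoxeterMatrix.A n)` and the Artin groups `Artin (vbM V)` for every set `V`. -/
theorem result (C : ∀ (G : Type) [Group G], Prop) (hC : ClosedE C)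
    (hcox : ∀ (S : Type) (_ : Finite S) (A : CoxeterMatrix S), C A.Group) :
    (∀ (B : Type) (M : CoxeterMatrix B) (G : Type) [Group G] (ι : Artin M →* G) [ι.range.Normal],
      Function.Injective ι → C (Artin M) → C (G ⧸ ι.range) →
      (∀ (g : G) (F : Set B), F.Finite → ∃ (a : Artin M) (θ : B → B) (e : ℤ), (e = 1 ∨ e = -1) ∧
        Set.InjOn θ F ∧ (∀ i ∈ F, ∀ j ∈ F, M (θ i) (θ j) = M i j) ∧
        ∀ i ∈ F, g * ι (Artin.gen M i) * g⁻¹ = ι (a * Artin.gen M (θ i) ^ e * a⁻¹)) → C G) ∧
    (∀ (S : Type) (M : CoxeterMatrix S), C (VA M) ↔
      ∀ K : Set (Rts M), K.Finite → (∀ i ∈ K, ∀ j ∈ K, rtM M i j ≠ 0) → Irr (rtM M) K →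
        C (Artin (rest (rtM M) K))) ∧
    ((∀ (K : Type) (_ : Finite K) (N : CoxeterMatrix K), Psd N → (∀ i j, N i j ≠ 0) →
      Irr N Set.univ → C (Artin N)) → ∀ (S : Type) (M : CoxeterMatrix S), Psd M → C (VA M)) ∧
    ((∀ n : ℕ, 3 ≤ n → C (Artin (cyc n))) →
      (∀ n : ℕ, C (VA (CoxeterMatrix.A n))) ∧ ∀ V : Type, C (Artin (vbM V))) := by
  refine ⟨?_, fun S M => C_va hC hcox M, fun hsa S M hM => C_psd hC hcox hsa M hM, ?_⟩
  · intro B M G _ ι _ hι hA hQ hconj
    refine C_ext hC hcox hA ι hι hQ fun g F hF => ?_
    obtain ⟨a, θ, e, he, h1, h2, h3⟩ := hconj g F hF
    rcases he with rfl | rfl
    · exact ⟨a, θ, true, h1, h2, h3⟩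
    · exact ⟨a, θ, false, h1, h2, h3⟩
  · intro hcyc
    exact ⟨fun n => C_vbraid hC hcox hcyc n, fun V => C_vb hC hcox hcyc V⟩

end Pool.Agent.Results.MP_8f66f0_al.VirtualArtinGroups
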